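import Pool.Agent.J4H25.NPU.Eng
import Pool.Agent.J4H25.NPB.Gen

set_option autoImplicit false

/-!
# The summation, with arbitrary weights of the stages which are not captured
-/

namespace Pool.Agent.J4H25.NPU

open MeasureTheory Filter Pool.Agent.NPC Pool.Agent.H628R3.RO Pool.Agent.J4H63.ESY Pool.Agent.J4H45.OPT
open Pool.Agent.J4H45.EXP (T wds T_strictMono le_T T_pos two_pow_T_le two_pow_T_lt mem_wds card_wds)
open Pool.Agent.J4H25.NPP (loc_mono loc_inter two_pow_T_le_T)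
open Pool.Agent.J4H25.NPB (lvG lvG_le lvG_zero lvG_succ_of lvG_succ_of_not AtG mem_AtG inter_AtG
  inter_AtG_compl loc_lvG loc_AtG meas_AtG loc_noEr le_two_pow_T)

section

variable {Cp : ℕ → ℕ → Set Oracle} {i0 : ℕ}
  (hCp : ∀ i ≥ i0, ∀ l, Loc {x | x.length ≤ 2 ^ T i} (Cp i l))

include hCp

/-- the summation for given events -/
theorem key_genU {a : ℕ → ℕ} (s1 : ∑' m, (2⁻¹ : ENNReal) ^ (2 * a m) ≠ ⊤)
    {v : ℕ → ENNReal} (s3 : ∀ m, v m ≠ ⊤) (s2 : ∑' m, v m = ⊤) {κ : ENNReal} (hκ : κ ≠ ⊤) {Er : ℕ → Set Oracle}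
    (hEr : ∀ i ≥ i0, Loc {x | x.length ≤ 2 ^ T i} (Er i))
    (hcap : ∀ i ≥ i0, ∀ m, ∀ R : Set Oracle, Loc {x | x.length ≤ T i} R →
      (2⁻¹ : ENNReal) ^ (2 * a m) * randomOracle (R ∩ Cp i m) ≤
        κ * randomOracle (R ∩ Er i) + 2⁻¹ * (2⁻¹ ^ (2 * a m) * randomOracle R))
    {Bt : ℕ → ℕ → Set Oracle}
    (hBt : ∀ i ≥ i0, ∀ l ≤ i, Loc {x | x.length ≤ 2 ^ T i} (Bt i l))
    (hbt : ∀ i ≥ i0, ∀ m, ∀ R : Set Oracle, Loc {x | x.length ≤ T i} R →
      randomOracle (R ∩ Bt i m) ≤ 2⁻¹ ^ (2 * a m) * randomOracle R)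
    {Fs : ℕ → ℕ → Set Oracle} {i1 : ℕ} (hi1 : i0 ≤ i1)
    (hFs : ∀ i ≥ i1, ∀ l ≤ i, Loc {x | x.length ≤ 2 ^ T i} (Fs i l))
    (hfs : ∀ i ≥ i1, ∀ m ≤ i, ∀ R : Set Oracle, Loc {x | x.length ≤ T i} R →
      v m * randomOracle (R ∩ (Cp i m)ᶜ) ≤
        4 * randomOracle (R ∩ Fs i m) + 16 * 2⁻¹ ^ (2 * a m) * randomOracle R) (N : ℕ) :
    ∀ᵐ A ∂randomOracle, (∀ k, A ∉ Er (i0 + k)) →
      (∀ᶠ k in atTop, A ∉ AtG Cp i0 (i0 + k) (fun l => Bt (i0 + k) l)) ∧
      ∃ k ≥ N, A ∈ AtG Cp i0 (i0 + k) (fun l => Fs (i0 + k) l) := by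
  have hFll : ∀ k ≥ i1 + N, Loc {x | x.length ≤ 2 ^ T (i0 + k)}
      (AtG Cp i0 (i0 + k) (fun l => Fs (i0 + k) l)) :=
    fun k hk => loc_AtG hCp fun l hl => hFs _ (by omega) l hl
  have key := eng (μ := randomOracle) a κ hκ
    (fun k A => lvG Cp i0 A (i0 + k)) (fun k => Er (i0 + k))
    (fun k => AtG Cp i0 (i0 + k) (fun l => Bt (i0 + k) l))
    (fun k => AtG Cp i0 (i0 + k) (fun l => Cp (i0 + k) l))
    (fun k m => measurableSet_of_loc (finite_length_le (T (i0 + k))) (loc_lvG hCp (i0 + k) m))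
    (fun k => measurableSet_of_loc (finite_length_le (2 ^ T (i0 + k))) (hEr _ (by omega)))
    (fun k => meas_AtG hCp fun l hl => hBt _ (by omega) l hl)
    (fun k => meas_AtG hCp fun l _ => hCp _ (by omega) l)
    (fun A => lvG_zero Cp i0 A (by omega))
    (fun k A hA => by
      have h := (mem_AtG Cp i0).1 hA
      rw [← add_assoc]
      exact lvG_succ_of Cp i0 (by omega) h)
    (fun k A hA => by
      have h : A ∉ Cp (i0 + k) (lvG Cp i0 A (i0 + k)) := fun h' => hA ((mem_AtG Cp i0).2 h')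
      rw [← add_assoc]
      exact lvG_succ_of_not Cp i0 (by omega) h)
    s1 ?_ ?_
  · obtain ⟨k1, k2⟩ := key
    have h3 := k2 v s3 s2 (fun k => AtG Cp i0 (i0 + k) (fun l => Fs (i0 + k) l)) (i1 + N)
      (fun k hk => measurableSet_of_loc (finite_length_le (2 ^ T (i0 + k))) (hFll k hk)) ?_
    · filter_upwards [k1, h3] with A hA hA' hE
      obtain ⟨k, hk, h4⟩ := hA' hE
      exact ⟨hA hE, k, by omega, h4⟩
    · intro k hk m
      have hR : ∀ A ∈ {A | ∀ j < k, A ∉ Er (i0 + j)} ∩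
          {A | ∀ j < k, i1 + N ≤ j → A ∉ AtG Cp i0 (i0 + j) (fun l => Fs (i0 + j) l)} ∩
          {A | lvG Cp i0 A (i0 + k) = m}, lvG Cp i0 A (i0 + k) = m := fun A hA => hA.2
      by_cases hm : m ≤ i0 + k
      · have hG : Loc {x | x.length ≤ T (i0 + k)}
            {A | ∀ j < k, i1 + N ≤ j → A ∉ AtG Cp i0 (i0 + j) (fun l => Fs (i0 + j) l)} := by
          intro A A' hA
          refine forall₃_congr fun j hj hj' => not_congr ?_
          refine hFll j hj' A A' fun x hx => hA x ?_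
          have h3 := two_pow_T_le_T (i := i0 + k) (j := i0 + j) (by omega)
          simp only [Set.mem_ofPred_eq] at hx ⊢
          omega
        have h4 := hfs (i0 + k) (by omega) m hm _
          (loc_inter (loc_inter (loc_noEr hEr k) hG) (loc_lvG hCp (i0 + k) m))
        rw [inter_AtG_compl Cp i0 hR, inter_AtG Cp i0 hR]
        exact h4
      · have e : {A | ∀ j < k, A ∉ Er (i0 + j)} ∩
          {A | ∀ j < k, i1 + N ≤ j → A ∉ AtG Cp i0 (i0 + j) (fun l => Fs (i0 + j) l)} ∩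
          {A | lvG Cp i0 A (i0 + k) = m} = ∅ := by
          rw [Set.eq_empty_iff_forall_notMem]
          intro A hA
          have h5 := hR A hA
          have := lvG_le Cp i0 A (i0 + k)
          omega
        rw [e]
        simp
  · intro k m
    have hR : ∀ A ∈ {A | ∀ j < k, A ∉ Er (i0 + j)} ∩ {A | lvG Cp i0 A (i0 + k) = m},
        lvG Cp i0 A (i0 + k) = m := fun A hA => hA.2
    have h1 := hcap (i0 + k) (by omega) m _
      (loc_inter (loc_noEr hEr k) (loc_lvG hCp (i0 + k) m))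
    rw [inter_AtG Cp i0 hR]
    exact h1
  · intro k m
    have hR : ∀ A ∈ {A | ∀ j < k, A ∉ Er (i0 + j)} ∩ {A | lvG Cp i0 A (i0 + k) = m},
        lvG Cp i0 A (i0 + k) = m := fun A hA => hA.2
    have h1 := hbt (i0 + k) (by omega) m _
      (loc_inter (loc_noEr hEr k) (loc_lvG hCp (i0 + k) m))
    rw [inter_AtG Cp i0 hR]
    exact h1

end

end Pool.Agent.J4H25.NPU
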