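import Pool.Agent.J4H25.NPU.Nb

set_option autoImplicit false

/-!
# Procedures with a bounded number of questions fail, for all bounds
-/

namespace Pool.Agent.J4H25.NPU

open MeasureTheory Filter Pool.Agent.NPC Pool.Agent.H628R3.RO Pool.Agent.J4H63.ESY Pool.Agent.J4H45.OPT
open Pool.Agent.J4H45.EXP (T wds T_strictMono le_T T_pos two_pow_T_le two_pow_T_lt mem_wds card_wds)
open Pool.Agent.J4H25.NPP Pool.Agent.J4H25.NPB
open Pool.Agent.J4H81.NPP (size_le touched hit_plant off_plant)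

theorem two_pow_mu (l : ℕ) : 2 ^ (16 * mu l) ≤ 2 * (l + 1) := by
  have h1 : 16 * mu l ≤ (l + 1).size := Nat.mul_div_le _ _
  have h0 : 0 < (l + 1).size := Nat.size_pos.2 (by omega)
  have h2 : 2 ^ ((l + 1).size - 1) ≤ l + 1 := Nat.lt_size.1 (by omega)
  calc 2 ^ (16 * mu l) ≤ 2 ^ (l + 1).size := Nat.pow_le_pow_right (by norm_num) h1
    _ = 2 * 2 ^ ((l + 1).size - 1) := by
      rw [← pow_succ']
      congr 1
      omega
    _ ≤ _ := by omega

section

variable {O : Oracle → Oracle} (E : Emb2 O) {M : ℕ → Alg} {p : ℕ → Polynomial ℕ} {K i0 : ℕ}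
  (ok : Ok3 M p K i0)

/-- the answers given by the set `φ` -/
def ansU (L : ℕ) (σ φ : Finset (List Bool)) (q : List Bool) : Bool :=
  if q.length ≤ L then decide (q ∈ σ) else decide (q ∈ φ)

/-- the answers given by `φ` are right after planting `(c, w)`, at the first `k` questions -/
def Cons (O : Oracle → Oracle) (M : ℕ → Alg) (p : ℕ → Polynomial ℕ) (A : Oracle) (m k : ℕ)
    (Q : ℕ → List Bool) (φ : Finset (List Bool)) (c : ℕ) (w : List Bool) : Prop :=
  ∀ j < k, (Mem (M 0) (p 0) (O (plant (spots m (c, w)) A)) (Q j) → Q j ∈ φ) ∧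
    (Mem (M 1) (p 1) (O (plant (spots m (c, w)) A)) (Q j) → Q j ∉ φ)

open Classical in
/-- if the stage is not captured then some answers are right for many `w`, for both copies -/
theorem pigeon (M : ℕ → Alg) (p : ℕ → Polynomial ℕ) (A : Oracle) (n m k : ℕ) (hk : k + 1 ≤ 2 * n)
    (Q : ℕ → List Bool) (h : 4 * (rows O M p A n m k Q).card < 2 ^ n) :
    ∃ φ : Finset (List Bool), ∀ c < 2,
      2 ^ n ≤ 2 ^ (k + 1) * ((wds n).filter (Cons O M p A m k Q φ c)).card := by
  set G := ((wds n) ×ˢ (wds n)).filter (fun t => t.2 ∉ row O M p A n m k Q t.1) with hG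
  have hGcard : 4 ^ n ≤ 2 * G.card := by
    have h1 : (((wds n) \ rows O M p A n m k Q).sigma
        (fun w => (wds n) \ row O M p A n m k Q w)).card =
        ∑ w ∈ (wds n) \ rows O M p A n m k Q, ((wds n) \ row O M p A n m k Q w).card :=
      Finset.card_sigma _ _
    have h2 : (((wds n) \ rows O M p A n m k Q).sigma
        (fun w => (wds n) \ row O M p A n m k Q w)).card ≤ G.card := by
      refine Finset.card_le_card_of_injOn (fun t => (t.1, t.2)) ?_ ?_
      · intro t ht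
        rw [Finset.mem_coe, Finset.mem_sigma, Finset.mem_sdiff, Finset.mem_sdiff] at ht
        rw [Finset.mem_coe, hG, Finset.mem_filter, Finset.mem_product]
        exact ⟨⟨ht.1.1, ht.2.1⟩, ht.2.2⟩
      · rintro ⟨a, b⟩ _ ⟨a', b'⟩ _ h
        simp only [Prod.mk.injEq] at h
        obtain ⟨h3, h4⟩ := h
        subst h3
        subst h4
        rfl
    have h3 : ((wds n) \ rows O M p A n m k Q).card * (3 * 2 ^ n) ≤
        4 * ∑ w ∈ (wds n) \ rows O M p A n m k Q, ((wds n) \ row O M p A n m k Q w).card := by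
      rw [Finset.mul_sum, ← smul_eq_mul, ← Finset.sum_const]
      refine Finset.sum_le_sum fun w hw => ?_
      rw [Finset.mem_sdiff] at hw
      have h4 : ¬ 2 ^ n ≤ 4 * (row O M p A n m k Q w).card := by
        intro h4
        refine hw.2 ?_
        unfold rows
        rw [Finset.mem_filter]
        exact ⟨hw.1, h4⟩
      have h5 := Finset.le_card_sdiff (row O M p A n m k Q w) (wds n)
      rw [card_wds] at h5
      omega
    have h6 := Finset.le_card_sdiff (rows O M p A n m k Q) (wds n)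
    rw [card_wds] at h6
    have h7 : 3 * 2 ^ n ≤ 4 * ((wds n) \ rows O M p A n m k Q).card := by omega
    have h8 : (3 * 2 ^ n) * (3 * 2 ^ n) ≤ 16 * G.card := by
      calc (3 * 2 ^ n) * (3 * 2 ^ n) ≤
          (4 * ((wds n) \ rows O M p A n m k Q).card) * (3 * 2 ^ n) := Nat.mul_le_mul_right _ h7
        _ = 4 * (((wds n) \ rows O M p A n m k Q).card * (3 * 2 ^ n)) := by ring
        _ ≤ 4 * (4 * ∑ w ∈ (wds n) \ rows O M p A n m k Q,
            ((wds n) \ row O M p A n m k Q w).card) := Nat.mul_le_mul_left _ h3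
        _ ≤ 4 * (4 * G.card) := by
            rw [← h1]
            exact Nat.mul_le_mul_left _ (Nat.mul_le_mul_left _ h2)
        _ = _ := by ring
    have h9 : 4 ^ n = 2 ^ n * 2 ^ n := by rw [← mul_pow]; norm_num
    rw [h9]
    nlinarith
  set 𝒬 := (Finset.range k).image Q with h𝒬
  have hQc : 𝒬.card ≤ k := Finset.card_image_le.trans (Finset.card_range k).le
  obtain ⟨F, hF⟩ : ∃ F : List Bool × List Bool → Finset (List Bool), ∀ t, F t =
      𝒬.filter (fun q => Mem (M 0) (p 0) (O (plant (spots m (0, t.1)) A)) q ∨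
        Mem (M 0) (p 0) (O (plant (spots m (1, t.2)) A)) q) := ⟨_, fun _ => rfl⟩
  have hpow : 𝒬.powerset.card ≤ 2 ^ k := by
    rw [Finset.card_powerset]
    exact Nat.pow_le_pow_right (by norm_num) hQc
  have e4 : 4 ^ n = 2 ^ (2 * n) := by rw [pow_mul]; norm_num
  obtain ⟨φ, -, hφ⟩ := Finset.exists_le_card_fiber_of_mul_le_card_of_maps_to
    (s := G) (t := 𝒬.powerset) (f := F) (n := 2 ^ (2 * n - (k + 1)))
    (fun t _ => Finset.mem_powerset.2 (by rw [hF]; exact Finset.filter_subset _ _))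
    ⟨∅, Finset.empty_mem_powerset _⟩ (by
      have e1 : 2 ^ k * 2 ^ (2 * n - (k + 1)) * 2 = 2 ^ (2 * n) := by
        rw [← pow_add, ← pow_succ]
        congr 1
        omega
      have e2 : 𝒬.powerset.card * 2 ^ (2 * n - (k + 1)) ≤ 2 ^ k * 2 ^ (2 * n - (k + 1)) :=
        Nat.mul_le_mul_right _ hpow
      rw [e4] at hGcard
      omega)
  refine ⟨φ, ?_⟩
  set Z := fun c => (wds n).filter (Cons O M p A m k Q φ c) with hZ
  have hsub : (G.filter (fun t => F t = φ)) ⊆ (Z 0) ×ˢ (Z 1) := by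
    intro t ht
    rw [Finset.mem_filter, hG, Finset.mem_filter, Finset.mem_product] at ht
    obtain ⟨⟨⟨m1, m2⟩, m3⟩, m4⟩ := ht
    have m5 : ∀ j < k, ¬ Cfl O M p (plant (spots m (0, t.1)) A) (plant (spots m (1, t.2)) A)
        (Q j) := by
      intro j hj hc
      refine m3 ?_
      unfold row
      rw [Finset.mem_filter]
      exact ⟨m2, j, hj, hc⟩
    have m6 : ∀ j < k, (Q j ∈ φ ↔ Mem (M 0) (p 0) (O (plant (spots m (0, t.1)) A)) (Q j) ∨
        Mem (M 0) (p 0) (O (plant (spots m (1, t.2)) A)) (Q j)) := by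
      intro j hj
      rw [← m4, hF, Finset.mem_filter]
      refine and_iff_right ?_
      exact Finset.mem_image_of_mem Q (Finset.mem_range.2 hj)
    rw [Finset.mem_product, hZ]
    simp only [Finset.mem_filter]
    refine ⟨⟨m1, fun j hj => ⟨fun h => (m6 j hj).2 (Or.inl h), fun h h' => ?_⟩⟩,
      m2, fun j hj => ⟨fun h => (m6 j hj).2 (Or.inr h), fun h h' => ?_⟩⟩
    · exact m5 j hj ⟨(m6 j hj).1 h', Or.inl h⟩
    · exact m5 j hj ⟨(m6 j hj).1 h', Or.inr h⟩
  have hprod : 2 ^ (2 * n - (k + 1)) ≤ (Z 0).card * (Z 1).card := by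
    rw [← Finset.card_product]
    exact hφ.trans (Finset.card_le_card hsub)
  have hle : ∀ c, (Z c).card ≤ 2 ^ n := by
    intro c
    rw [← card_wds]
    exact Finset.card_le_card (Finset.filter_subset _ _)
  have e5 : 2 ^ n * 2 ^ n = 2 ^ (k + 1) * 2 ^ (2 * n - (k + 1)) := by
    rw [← pow_add, ← pow_add]
    congr 1
    omega
  intro c hc
  have h10 : 2 ^ n * 2 ^ n ≤ 2 ^ n * (2 ^ (k + 1) * (Z c).card) := by
    rw [e5]
    interval_cases c
    · calc 2 ^ (k + 1) * 2 ^ (2 * n - (k + 1)) ≤ 2 ^ (k + 1) * ((Z 0).card * (Z 1).card) :=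
            Nat.mul_le_mul_left _ hprod
        _ ≤ 2 ^ (k + 1) * ((Z 0).card * 2 ^ n) :=
            Nat.mul_le_mul_left _ (Nat.mul_le_mul_left _ (hle 1))
        _ = _ := by ring
    · calc 2 ^ (k + 1) * 2 ^ (2 * n - (k + 1)) ≤ 2 ^ (k + 1) * ((Z 0).card * (Z 1).card) :=
            Nat.mul_le_mul_left _ hprod
        _ ≤ 2 ^ (k + 1) * (2 ^ n * (Z 1).card) :=
            Nat.mul_le_mul_left _ (Nat.mul_le_mul_right _ (hle 0))
        _ = _ := by ring
  exact Nat.le_of_mul_le_mul_left h10 (by positivity)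

include E ok in
theorem plant_FlU (b L : ℕ) (σ : Finset (List Bool)) (MF : Alg) :
    ∃ i1 ≥ i0, ∀ i ≥ i1, ∀ l ≤ i, (strs b).length ≤ mu l → ∀ A ∉ Cap3 O M p K i l,
    ∃ c < 2, ∃ I' ⊆ wds (T i), 2 ^ T i ≤ 2 ^ (mu l + 2) * I'.card ∧
      ∀ w ∈ I', plant (spots (T i + bx 3 l) (c, w)) A ∈ FlB O M p 3 b L σ MF i l := by
  classical
  obtain ⟨N1, h1⟩ := size_rF K b MF
  obtain ⟨u', hu'⟩ : ∃ u' : Polynomial ℕ, ∀ n a : ℕ, a ≤ b →
      (8 * (n + 1)) * MF.p.eval (2 * n + 1 + a) ≤ u'.eval n := by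
    refine ⟨(Polynomial.C 8 * (Polynomial.X + Polynomial.C 1)) *
      MF.p.comp (Polynomial.C 2 * Polynomial.X + Polynomial.C (1 + b)), fun n a ha => ?_⟩
    rw [Polynomial.eval_mul, Polynomial.eval_mul, Polynomial.eval_add, Polynomial.eval_C,
      Polynomial.eval_C, Polynomial.eval_X, Polynomial.eval_comp]
    refine Nat.mul_le_mul_left _ (poly_mono MF.p ?_)
    simp only [Polynomial.eval_add, Polynomial.eval_mul, Polynomial.eval_C, Polynomial.eval_X]
    omega
  obtain ⟨N2, h2⟩ := Filter.eventually_atTop.1 (_root_.H529R3.Lev.poly_le_two_pow u')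
  refine ⟨i0 + N1 + N2 + 1, by omega, fun i hi l hl hb A hA => ?_⟩
  have hTi := le_T i
  obtain ⟨k, hk⟩ : ∃ k, k = mu l := ⟨_, rfl⟩
  have hkl : k ≤ l := by rw [hk]; exact mu_le l
  have hmi : mi i l = k := by
    unfold mi
    rw [← hk]
    exact min_eq_left (by omega)
  rw [← hk] at hb ⊢
  obtain ⟨x, hx⟩ : ∃ x, x = List.replicate (T i) false := ⟨_, rfl⟩
  obtain ⟨Q, hQ⟩ : ∃ Q : ℕ → List Bool, ∀ j, Q j =
      (rF MF (O A) (pairBits x ((strs b).getD j []))).tail := ⟨_, fun _ => rfl⟩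
  have hgetD : ∀ j, ((strs b).getD j []).length ≤ b := by
    intro j
    by_cases hj : j < (strs b).length
    · rw [List.getD_eq_getElem _ _ hj]
      exact mem_strs.1 (List.getElem_mem hj)
    · rw [List.getD_eq_default _ _ (by omega)]
      exact Nat.zero_le _
  have hQs : ∀ j, K * (Q j).length.size ≤ T i := by
    intro j
    rw [hQ, hx]
    exact h1 i (by omega) (O A) _ (hgetD j)
  have hrows : 4 * (rows O M p A (T i) (T i + bx 3 l) k Q).card < 2 ^ T i := by
    by_contra hcon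
    push Not at hcon
    refine hA ⟨Q, fun j _ => hQs j, ?_⟩
    rw [hmi]
    exact hcon
  obtain ⟨φ, hφ⟩ := pigeon M p A (T i) (T i + bx 3 l) k (by omega) Q hrows
  obtain ⟨d, hd⟩ : ∃ d, d = runQ (rF MF (O A)) (ansU L σ φ) x b [] := ⟨_, rfl⟩
  obtain ⟨c, hc, hcd⟩ : ∃ c < 2, decide (c = 1) = d := by
    cases d
    · exact ⟨0, by norm_num, by simp⟩
    · exact ⟨1, by norm_num, by simp⟩
  have key : ∀ a : List Bool, ∃ S : Finset (List Bool),
      S.card ≤ MF.p.eval (pairBits x a).length ∧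
      ∀ w : List Bool, w.length = T i → w ∉ S →
        rF MF (O (plant (spots (T i + bx 3 l) (c, w)) A)) (pairBits x a) =
          rF MF (O A) (pairBits x a) := by
    intro a
    obtain ⟨S, hS, hf⟩ := touched E.toEmb MF A (pairBits x a) (T i)
    refine ⟨S, hS, fun w hw hwS => ?_⟩
    unfold rF
    rw [hf w hw hwS _ (off_plant c _ w A)]
  choose S hS hf using key
  set St := (strs b).toFinset.biUnion S with hSt
  have hn : k ≤ T i := by omega
  have hStc : 2 ^ (k + 2) * St.card ≤ 2 ^ T i := by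
    have e1 : 2 ^ (16 * k) ≤ 2 * (l + 1) := by rw [hk]; exact two_pow_mu l
    have e2 : 2 ^ (k + 2) * k ≤ 8 * (T i + 1) := by
      calc 2 ^ (k + 2) * k ≤ 2 ^ (k + 2) * 2 ^ k :=
            Nat.mul_le_mul_left _ Nat.lt_two_pow_self.le
        _ = 4 * 2 ^ (2 * k) := by rw [← pow_add]; ring
        _ ≤ 4 * 2 ^ (16 * k) :=
            Nat.mul_le_mul_left _ (Nat.pow_le_pow_right (by norm_num) (by omega))
        _ ≤ 4 * (2 * (l + 1)) := Nat.mul_le_mul_left _ e1
        _ ≤ _ := by omega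
    have e3 : St.card ≤ ∑ a ∈ (strs b).toFinset, (S a).card := Finset.card_biUnion_le
    have e4 : ∀ a ∈ (strs b).toFinset, 8 * (T i + 1) * (S a).card ≤ 2 ^ T i := by
      intro a ha
      rw [List.mem_toFinset, mem_strs] at ha
      have g1 := hu' (T i) a.length ha
      have g2 := h2 (T i) (by omega)
      have g3 := hS a
      rw [length_pairBits_A3, hx, List.length_replicate] at g3
      exact (Nat.mul_le_mul_left _ g3).trans (g1.trans g2)
    have e5 : (strs b).toFinset.card ≤ k := (List.toFinset_card_le _).trans hb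
    rcases Nat.eq_zero_or_pos k with h0 | h0
    · have e6 : (strs b).toFinset = ∅ := by
        rw [← Finset.card_eq_zero]
        omega
      rw [hSt, e6]
      simp
    · have e7 : k * (2 ^ (k + 2) * St.card) ≤ k * 2 ^ T i := by
        calc k * (2 ^ (k + 2) * St.card) = 2 ^ (k + 2) * k * St.card := by ring
          _ ≤ 8 * (T i + 1) * St.card := Nat.mul_le_mul_right _ e2
          _ ≤ 8 * (T i + 1) * ∑ a ∈ (strs b).toFinset, (S a).card :=
              Nat.mul_le_mul_left _ e3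
          _ = ∑ a ∈ (strs b).toFinset, 8 * (T i + 1) * (S a).card := by rw [Finset.mul_sum]
          _ ≤ ∑ a ∈ (strs b).toFinset, 2 ^ T i := Finset.sum_le_sum e4
          _ = (strs b).toFinset.card * 2 ^ T i := by rw [Finset.sum_const, smul_eq_mul]
          _ ≤ k * 2 ^ T i := Nat.mul_le_mul_right _ e5
      exact Nat.le_of_mul_le_mul_left e7 h0
  refine ⟨c, hc, (wds (T i)).filter (Cons O M p A (T i + bx 3 l) k Q φ c) \ St,
    Finset.sdiff_subset.trans (Finset.filter_subset _ _), ?_, fun w hw => ?_⟩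
  · have g1 := Finset.le_card_sdiff St
      ((wds (T i)).filter (Cons O M p A (T i + bx 3 l) k Q φ c))
    have g2 := hφ c hc
    have g3 : 2 ^ (k + 2) = 2 * 2 ^ (k + 1) := by ring
    have g4 : 2 ^ (k + 2) * ((wds (T i)).filter (Cons O M p A (T i + bx 3 l) k Q φ c)).card ≤
        2 ^ (k + 2) * (((wds (T i)).filter (Cons O M p A (T i + bx 3 l) k Q φ c)) \ St).card +
          2 ^ (k + 2) * St.card := by
      rw [← mul_add]
      exact Nat.mul_le_mul_left _ (by omega)
    have g5 : 2 * 2 ^ T i ≤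
        2 ^ (k + 2) * ((wds (T i)).filter (Cons O M p A (T i + bx 3 l) k Q φ c)).card := by
      rw [g3, mul_assoc]
      exact Nat.mul_le_mul_left _ g2
    omega
  · rw [Finset.mem_sdiff, Finset.mem_filter, mem_wds] at hw
    obtain ⟨⟨hwl, hcons⟩, hwS⟩ := hw
    have hS' : ∀ a : List Bool, a.length ≤ b → w ∉ S a := by
      intro a ha h
      refine hwS ?_
      rw [hSt]
      exact Finset.mem_biUnion.2 ⟨a, List.mem_toFinset.2 (mem_strs.2 ha), h⟩
    refine ⟨c, hc, ⟨w, hwl, hit_plant c _ w A⟩, ansU L σ φ, ?_⟩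
    obtain ⟨L', hL'⟩ := exists_RunP (rF MF (O A)) (ansU L σ φ) x b []
    rw [← hd, ← hcd] at hL'
    rw [← hx]
    refine RunP.congr (B := b) (fun a ha => hf a w hwl (hS' a ha)) (fun a ha _ => ?_) (by simp) hL'
    obtain ⟨j, hj, hja⟩ := List.getElem_of_mem (mem_strs.2 ha)
    have hqj : (rF MF (O A) (pairBits x a)).tail = Q j := by
      rw [hQ, List.getD_eq_getElem _ _ hj, hja]
    rw [hqj]
    have hcj := hcons j (by omega)
    refine ⟨fun h => ?_, fun h => ?_⟩
    · unfold ansU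
      rw [if_pos h]
    · unfold ansU
      rw [if_neg (by omega), decide_eq_true_eq, decide_eq_false_iff_not]
      exact hcj

end

theorem arithU {n a h : ℕ} (hn : h ≤ n) {s X : ENNReal}
    (hs : ((2 ^ n / 2 ^ h : ℕ) : ENNReal) * s ≤ 2 ^ (n + a) * X) :
    (2⁻¹ : ENNReal) ^ (a + h) * s ≤ X := by
  obtain ⟨k, rfl⟩ : ∃ k, n = h + k := ⟨n - h, by omega⟩
  have e1 : 2 ^ (h + k) / 2 ^ h = 2 ^ k := by
    rw [pow_add]
    exact Nat.mul_div_cancel_left _ (by positivity)
  rw [e1] at hs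
  push_cast at hs
  have e3 : ∀ j : ℕ, (2⁻¹ : ENNReal) ^ j * 2 ^ j = 1 := by
    intro j
    rw [← mul_pow, ENNReal.inv_mul_cancel (by norm_num) (by norm_num), one_pow]
  calc (2⁻¹ : ENNReal) ^ (a + h) * s = (2⁻¹ ^ k * 2 ^ k) * (2⁻¹ ^ (a + h) * s) := by
        rw [e3, one_mul]
    _ = 2⁻¹ ^ (h + k + a) * (2 ^ k * s) := by
        rw [show h + k + a = k + (a + h) by ring, pow_add 2⁻¹ k (a + h)]
        ring
    _ ≤ 2⁻¹ ^ (h + k + a) * (2 ^ (h + k + a) * X) := by gcongr
    _ = X := by rw [← mul_assoc, e3, one_mul]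

/-- the weights -/
noncomputable def vU (b m : ℕ) : ENNReal :=
  if (strs b).length ≤ mu m then 2⁻¹ ^ (bx 3 m + (mu m + 2)) else 0

theorem vU_ne_top (b m : ℕ) : vU b m ≠ ⊤ := by
  unfold vU
  split_ifs
  · exact ENNReal.pow_ne_top (by simp)
  · simp

theorem sum_vU (b : ℕ) : ∑' m, vU b m = ⊤ := by
  obtain ⟨t0, ht0⟩ : ∃ t0, t0 = (strs b).length + 12 := ⟨_, rfl⟩
  have key : ∀ t ≥ t0, (2 : ENNReal) ^ t ≤ ∑' m, vU b m := by
    intro t ht
    obtain ⟨k, hk⟩ : ∃ k, k + 1 = 16 * t := ⟨16 * t - 1, by omega⟩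
    have hsz : ∀ m ∈ Finset.Ico (2 ^ k - 1) (2 ^ (k + 1) - 1), (m + 1).size = k + 1 := by
      intro m hm
      rw [Finset.mem_Ico] at hm
      have h1 : 1 ≤ 2 ^ k := Nat.one_le_two_pow
      have h2 : 2 ^ (k + 1) = 2 * 2 ^ k := by ring
      apply le_antisymm
      · exact Nat.size_le.2 (by omega)
      · exact Nat.succ_le_of_lt (Nat.lt_size.2 (by omega))
    have hterm : ∀ m ∈ Finset.Ico (2 ^ k - 1) (2 ^ (k + 1) - 1),
        (2⁻¹ : ENNReal) ^ (23 + 13 * t) ≤ vU b m := by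
      intro m hm
      have h3 := hsz m hm
      have h4 : mu m = t := by
        unfold mu
        rw [h3, hk]
        omega
      have h5 : ((m + 1) ^ 3).size ≤ 3 * (k + 1) := by
        have h6 : m + 1 < 2 ^ (k + 1) := by
          rw [← h3]
          exact Nat.lt_size_self _
        refine Nat.size_le.2 ?_
        calc (m + 1) ^ 3 < (2 ^ (k + 1)) ^ 3 := Nat.pow_lt_pow_left h6 (by norm_num)
          _ = 2 ^ (3 * (k + 1)) := by rw [← pow_mul, mul_comm]
      unfold vU
      rw [if_pos (by omega)]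
      refine pow_le_pow_right_of_le_one' (by simp) ?_
      unfold bx ax
      omega
    have hcard : (Finset.Ico (2 ^ k - 1) (2 ^ (k + 1) - 1)).card = 2 ^ k := by
      rw [Nat.card_Ico]
      have h1 : 1 ≤ 2 ^ k := Nat.one_le_two_pow
      have h2 : 2 ^ (k + 1) = 2 * 2 ^ k := by ring
      omega
    calc (2 : ENNReal) ^ t = 2 ^ t * (2 ^ (23 + 13 * t) * 2⁻¹ ^ (23 + 13 * t)) := by
          rw [← mul_pow, ENNReal.mul_inv_cancel (by norm_num) (by norm_num), one_pow, mul_one]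
      _ = 2 ^ (t + (23 + 13 * t)) * 2⁻¹ ^ (23 + 13 * t) := by rw [pow_add]; ring
      _ ≤ 2 ^ k * 2⁻¹ ^ (23 + 13 * t) := by
          gcongr
          · norm_num
          · omega
      _ = ∑ m ∈ Finset.Ico (2 ^ k - 1) (2 ^ (k + 1) - 1), (2⁻¹ : ENNReal) ^ (23 + 13 * t) := by
          rw [Finset.sum_const, hcard, nsmul_eq_mul]
          push_cast
          rfl
      _ ≤ ∑ m ∈ Finset.Ico (2 ^ k - 1) (2 ^ (k + 1) - 1), vU b m := Finset.sum_le_sum hterm
      _ ≤ ∑' m, vU b m := ENNReal.sum_le_tsum _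
  by_contra hne
  obtain ⟨n, hn⟩ := ENNReal.exists_nat_gt hne
  have h1 := key (max t0 n) (le_max_left _ _)
  have h2 : (n : ENNReal) ≤ 2 ^ (max t0 n) := by
    have h3 : n ≤ 2 ^ (max t0 n) := (le_max_right t0 n).trans Nat.lt_two_pow_self.le
    exact_mod_cast h3
  exact absurd (hn.trans_le (h2.trans h1)) (lt_irrefl _)

section

variable {O : Oracle → Oracle} (E : Emb2 O) {M : ℕ → Alg} {p : ℕ → Polynomial ℕ} {K i0 : ℕ}
  (ok : Ok3 M p K i0)

include E ok in
theorem fail_boundU (b L : ℕ) (σ : Finset (List Bool)) (MF : Alg) :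
    ∃ i1 ≥ i0, (∀ i ≥ i1, ∀ l ≤ i,
    Loc {x | x.length ≤ 2 ^ T i} (FlB O M p 3 b L σ MF i l)) ∧
    ∀ i ≥ i1, ∀ m ≤ i, ∀ R : Set Oracle, Loc {x | x.length ≤ T i} R →
      vU b m * randomOracle (R ∩ (Cap3 O M p K i m)ᶜ) ≤
        4 * randomOracle (R ∩ FlB O M p 3 b L σ MF i m) +
          16 * 2⁻¹ ^ (2 * bx 3 m) * randomOracle R := by
  classical
  obtain ⟨i1, hi1, hL⟩ := loc_FlB E ok.ok2 b L σ MF
  obtain ⟨i2, hi2, hC⟩ := plant_FlU E ok b L σ MF
  refine ⟨max i1 i2, le_trans hi1 (le_max_left _ _),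
    fun i hi => hL i (le_trans (le_max_left _ _) hi), ?_⟩
  intro i hi m hm R hR
  have hi' : i1 ≤ i := le_trans (le_max_left _ _) hi
  have hi'' : i2 ≤ i := le_trans (le_max_right _ _) hi
  by_cases hb : (strs b).length ≤ mu m
  swap
  · unfold vU
    rw [if_neg hb, zero_mul]
    exact zero_le
  unfold vU
  rw [if_pos hb]
  have hFl : MeasurableSet (FlB O M p 3 b L σ MF i m) :=
    measurableSet_of_loc (finite_length_le _) (hL i hi' m hm)
  have hRm : MeasurableSet R := measurableSet_of_loc (finite_length_le _) hR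
  have h1 := Pool.Agent.J4H98.NPP.t_PL (ℕ × List Bool) (Finset.range 2 ×ˢ wds (T i))
    (fun κ => spots (T i + bx 3 m) κ) (T i + bx 3 m)
    (2 ^ T i / 2 ^ (mu m + 2)) (R ∩ (Cap3 O M p K i m)ᶜ) (R ∩ FlB O M p 3 b L σ MF i m)
    (hRm.inter hFl) ?_ ?_
  · have hmu : mu m + 2 ≤ T i := by
      have h3 := mu_le m
      have h4 := ok.ok2.large i (by omega)
      have h5 := le_T i
      have h6 : 16 * mu m ≤ m + 1 := by
        have h7 : (m + 1).size ≤ m + 1 := Nat.size_le.2 Nat.lt_two_pow_self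
        exact (Nat.mul_div_le _ _).trans h7
      omega
    have h2 := (Pool.Agent.J4H45.NPP.t_UP (T i) (bx 3 m) R (FlB O M p 3 b L σ MF i m) hR hFl).1
    have h3 : (2⁻¹ : ENNReal) ^ (bx 3 m + (mu m + 2)) *
        randomOracle (R ∩ (Cap3 O M p K i m)ᶜ) ≤
        randomOracle (R ∩ FlB O M p 3 b L σ MF i m) +
          4 * 2⁻¹ ^ (2 * bx 3 m) * randomOracle R := by
      refine arithU hmu (h1.trans ?_)
      gcongr
      rw [Finset.sum_product]
      refine le_of_eq_of_le ?_ h2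
      refine Finset.sum_congr rfl fun c _ => Finset.sum_congr rfl fun w _ => ?_
      congr 2
      ext A
      exact ones_iff _ _ _
    refine h3.trans (add_le_add ?_ ?_)
    · calc randomOracle (R ∩ FlB O M p 3 b L σ MF i m) =
          1 * randomOracle (R ∩ FlB O M p 3 b L σ MF i m) := (one_mul _).symm
        _ ≤ 4 * randomOracle (R ∩ FlB O M p 3 b L σ MF i m) := by
            gcongr
            norm_num
    · gcongr
      norm_num
  · intro κ _
    exact card_spots_le _ _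
  · rintro A ⟨hA, hCp⟩
    obtain ⟨c, hc, I', hI', hcard, hp⟩ := hC i hi'' m hm hb A hCp
    refine ⟨I'.image (fun w => (c, w)), ?_, ?_, ?_⟩
    · intro κ hκ
      obtain ⟨w, hw, rfl⟩ := Finset.mem_image.1 hκ
      exact Finset.mem_product.2 ⟨Finset.mem_range.2 hc, hI' hw⟩
    · rw [Finset.card_image_of_injective _ (fun w w' h => (Prod.ext_iff.1 h).2)]
      exact Nat.div_le_of_le_mul hcard
    · intro κ hκ
      obtain ⟨w, hw, rfl⟩ := Finset.mem_image.1 hκ
      exact ⟨(plant_mem_iff hR (lt_length_spots (mem_wds.1 (hI' hw))) A).2 hA, hp w hw⟩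

end

end Pool.Agent.J4H25.NPU
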