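import Pool.Agent.J4H25.NPU.Fb
import Pool.Agent.J4H25.NPB.Main

set_option autoImplicit false

/-!
# No pair is complete for procedures with boundedly many questions: one pair for all bounds
-/

namespace Pool.Agent.J4H25.NPU

open MeasureTheory Filter Pool.Agent.NPC Pool.Agent.H628R3.RO Pool.Agent.J4H63.ESY Pool.Agent.J4H45.OPT
open Pool.Agent.J4H45.EXP (T wds T_strictMono le_T T_pos two_pow_T_le two_pow_T_lt mem_wds card_wds)
open Pool.Agent.J4H25.NPP Pool.Agent.J4H25.NPB

section

variable {O : Oracle → Oracle} (E : Emb2 O) {M : ℕ → Alg} {p : ℕ → Polynomial ℕ} {K i0 : ℕ}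
  (ok : Ok3 M p K i0)

include E ok in
theorem ae_U : ∀ᵐ A ∂randomOracle,
    (∀ i ≥ i0, A ∉ Er O M p K i) →
    (∀ᶠ i in atTop, ∀ c < 2, ∀ c' < 2, A ∉ TwB 3 c c' i (lvG (Cap3 O M p K) i0 A i)) ∧
    ∀ (b : ℕ) (MF : Alg) (L : ℕ) (σ : Finset (List Bool)) (N : ℕ), ∃ i ≥ N,
      A ∈ FlB O M p 3 b L σ MF i (lvG (Cap3 O M p K) i0 A i) := by
  have h1 : ∀ᵐ A ∂randomOracle, ∀ (b : ℕ) (MF : Alg) (L : ℕ) (σ : Finset (List Bool)) (N c c' : ℕ),
      c < 2 → c' < 2 → (∀ k, A ∉ Er O M p K (i0 + k)) →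
      (∀ᶠ k in atTop, A ∉ AtG (Cap3 O M p K) i0 (i0 + k) (fun l => TwB 3 c c' (i0 + k) l)) ∧
      ∃ k ≥ N, A ∈ AtG (Cap3 O M p K) i0 (i0 + k) (fun l => FlB O M p 3 b L σ MF (i0 + k) l) := by
    rw [ae_all_iff]; intro b
    rw [ae_all_iff]; intro MF
    rw [ae_all_iff]; intro L
    rw [ae_all_iff]; intro σ
    rw [ae_all_iff]; intro N
    rw [ae_all_iff]; intro c
    rw [ae_all_iff]; intro c'
    by_cases hc : c < 2
    · by_cases hc' : c' < 2
      · obtain ⟨i1, hi1, hL, hf⟩ := fail_boundU E ok b L σ MF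
        have h2 := key_genU (Cp := Cap3 O M p K) (i0 := i0) (a := bx 3)
          (fun i hi l => loc_Cap3 E ok hi l) (sum_bx1 3) (vU_ne_top b) (sum_vU b)
          (κ := 4 * 4 ^ 3) (ENNReal.mul_ne_top (by norm_num) (ENNReal.pow_ne_top (by norm_num)))
          (Er := Er O M p K) (fun i hi => loc_Er' E ok.ok2.ok hi)
          (fun i hi m R hR => cap_bound3 E ok hi m hR)
          (Bt := fun i l => TwB 3 c c' i l) (fun i hi l hl => loc_TwB ok.ok2 hi hl hc hc')
          (fun i _ m R hR => two_boundB 3 c c' i m hR)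
          (Fs := fun i l => FlB O M p 3 b L σ MF i l) hi1 hL hf N
        filter_upwards [h2] with A hA _ _
        exact hA
      · exact Filter.Eventually.of_forall fun A _ h => absurd h hc'
    · exact Filter.Eventually.of_forall fun A h => absurd h hc
  filter_upwards [h1] with A hA hE
  have hE' : ∀ k, A ∉ Er O M p K (i0 + k) := fun k => hE _ (by omega)
  have h3 : ∀ c c' : ℕ, c < 2 → c' < 2 →
      ∀ᶠ i in atTop, A ∉ TwB 3 c c' i (lvG (Cap3 O M p K) i0 A i) := by
    intro c c' hc hc'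
    obtain ⟨N, hN⟩ := eventually_atTop.1 (hA 0 (M 0) 0 ∅ 0 c c' hc hc' hE').1
    refine eventually_atTop.2 ⟨i0 + N, fun i hi => ?_⟩
    obtain ⟨k, rfl⟩ : ∃ k, i = i0 + k := ⟨i - i0, by omega⟩
    intro h1
    exact hN k (by omega) ((mem_AtG (Cap3 O M p K) i0).2 h1)
  refine ⟨?_, fun b MF L σ N => ?_⟩
  · filter_upwards [h3 0 0 (by norm_num) (by norm_num), h3 0 1 (by norm_num) (by norm_num),
      h3 1 0 (by norm_num) (by norm_num), h3 1 1 (by norm_num) (by norm_num)] with i a b d f
    intro c hc c' hc'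
    interval_cases c <;> interval_cases c' <;> assumption
  · obtain ⟨k, hk, h⟩ := (hA b MF L σ N 0 0 (by norm_num) (by norm_num) hE').2
    exact ⟨i0 + k, by omega, (mem_AtG (Cap3 O M p K) i0).1 h⟩

end

/-! ### The theorem -/

/-- For every disjoint pair `(C, D)` of `NP` sets (relative to `B`) there are a disjoint pair of
nonempty tally `UP` sets and a separator `S` of `(C, D)` such that, for every number `b`, every
polynomial-time procedure with at most `b` (adaptive) questions to `S` errs on the new pair, on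
infinitely many inputs. -/
def NoHardPairU (B : Oracle) : Prop :=
  ∀ C D : Set (List Bool), IsPair (IsNP B) C D →
    ∃ X Y : Set (List Bool), IsPair (IsUP B) X Y ∧ X.Nonempty ∧ Y.Nonempty ∧
      (∀ x, x ∈ X ∨ x ∈ Y → ∃ n, x = List.replicate n false) ∧
      ∃ S : List Bool → Bool, IsSep C D S ∧
        ∀ (b : ℕ) (r : List Bool → List Bool), IsFP B r → ∀ N : ℕ, ∃ x : List Bool, N ≤ x.length ∧
          (x ∈ X ∧ runQ r S x b [] = false ∨ x ∈ Y ∧ runQ r S x b [] = true)

theorem mainU {O : Oracle → Oracle} (E : Emb2 O) :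
    ∀ᵐ A ∂randomOracle, NoHardPairU (O A) := by
  classical
  have hex : ∀ (M : ℕ → Alg) (p : ℕ → Polynomial ℕ), ∃ K i0, Ok3 M p K i0 :=
    exists_ok3
  choose K i0 ok using hex
  have h1 : ∀ᵐ A ∂randomOracle, ∀ (M0 M1 : Alg) (p0 p1 : Polynomial ℕ),
      (∀ i ≥ i0 (two M0 M1) (two p0 p1),
        A ∉ Er O (two M0 M1) (two p0 p1) (K (two M0 M1) (two p0 p1)) i) →
      (∀ᶠ i in atTop, ∀ c < 2, ∀ c' < 2, A ∉ TwB 3 c c' i
        (lvG (Cap3 O (two M0 M1) (two p0 p1) (K (two M0 M1) (two p0 p1)))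
          (i0 (two M0 M1) (two p0 p1)) A i)) ∧
      ∀ (b : ℕ) (MF : Alg) (L : ℕ) (σ : Finset (List Bool)) (N : ℕ), ∃ i ≥ N,
        A ∈ FlB O (two M0 M1) (two p0 p1) 3 b L σ MF i
          (lvG (Cap3 O (two M0 M1) (two p0 p1) (K (two M0 M1) (two p0 p1)))
            (i0 (two M0 M1) (two p0 p1)) A i) := by
    rw [ae_all_iff]
    intro M0
    rw [ae_all_iff]
    intro M1
    rw [ae_all_iff]
    intro p0
    rw [ae_all_iff]
    intro p1
    exact ae_U E (ok (two M0 M1) (two p0 p1))
  filter_upwards [h1] with A hA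
  rintro C D ⟨⟨V0, p0, ⟨M0, hM0⟩, hC⟩, ⟨V1, p1, ⟨M1, hM1⟩, hD⟩, hdis⟩
  have hA' := hA M0 M1 p0 p1
  have ok' := ok (two M0 M1) (two p0 p1)
  have hm0 : ∀ q, Mem (two M0 M1 0) (two p0 p1 0) (O A) q ↔ q ∈ C := by
    intro q
    rw [hC q]
    unfold Mem two
    simp only [if_true]
    refine exists_congr fun u => and_congr_right fun _ => ?_
    rw [hM0, Option.some.injEq]
  have hm1 : ∀ q, Mem (two M0 M1 1) (two p0 p1 1) (O A) q ↔ q ∈ D := by
    intro q
    rw [hD q]
    unfold Mem two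
    simp only [one_ne_zero, if_false]
    refine exists_congr fun u => and_congr_right fun _ => ?_
    rw [hM1, Option.some.injEq]
  generalize two M0 M1 = M at *
  generalize two p0 p1 = p at *
  generalize K M p = K' at *
  generalize i0 M p = i0' at *
  have hE : ∀ i ≥ i0', A ∉ Er O M p K' i := by
    rintro i - ⟨q, -, h0, h1⟩
    exact hdis q ⟨(hm0 q).1 h0, (hm1 q).1 h1⟩
  obtain ⟨hev, hfl⟩ := hA' hE
  obtain ⟨N1, hN1⟩ := eventually_atTop.1 hev
  obtain ⟨i1, h1a, h1b, h1c⟩ : ∃ i1, N1 ≤ i1 ∧ i0' ≤ i1 ∧ 5 ≤ i1 :=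
    ⟨N1 + i0' + 5, by omega, by omega, by omega⟩
  have hlen : ∀ c x, x ∈ LgU O M p K' i0' i1 A c → 5 ≤ x.length := by
    rintro c x ⟨i, hi, rfl, -⟩
    rw [List.length_replicate]
    have := le_T i
    omega
  have hX := isUP_LgU E ok' h1b A 0 fun i hi => hN1 i (by omega) 0 (by norm_num) 0 (by norm_num)
  have hY := isUP_LgU E ok' h1b A 1 fun i hi => hN1 i (by omega) 1 (by norm_num) 1 (by norm_num)
  refine ⟨insert (List.replicate 3 false) (LgU O M p K' i0' i1 A 0),
    insert (List.replicate 4 false) (LgU O M p K' i0' i1 A 1),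
    ⟨IsUP.insert hX _, IsUP.insert hY _, ?_⟩, Set.insert_nonempty _ _, Set.insert_nonempty _ _,
    ?_, ?_⟩
  · rintro x ⟨h2, h3⟩
    rw [Set.mem_insert_iff] at h2 h3
    rcases h2 with h2 | h2
    · rcases h3 with h3 | h3
      · rw [h2] at h3
        exact absurd (congrArg List.length h3) (by simp)
      · have := hlen 1 x h3
        rw [h2, List.length_replicate] at this
        omega
    · rcases h3 with h3 | h3
      · have := hlen 0 x h2
        rw [h3, List.length_replicate] at this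
        omega
      · obtain ⟨i, hi, hx, w, hw, hh⟩ := h2
        obtain ⟨i', hi', hx', w', hw', hh'⟩ := h3
        have hii : i' = i := by
          apply T_strictMono.injective
          have e1 := congrArg List.length hx
          have e2 := congrArg List.length hx'
          rw [List.length_replicate] at e1 e2
          omega
        subst hii
        exact hN1 i' (by omega) 0 (by norm_num) 1 (by norm_num)
          ⟨w, w', hw, hw', fun h => absurd (Prod.ext_iff.1 h).1 (by norm_num), hh, hh'⟩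
  · rintro x (h2 | h2)
    · rcases Set.mem_insert_iff.1 h2 with h3 | ⟨i, -, h3, -⟩
      · exact ⟨3, h3⟩
      · exact ⟨_, h3⟩
    · rcases Set.mem_insert_iff.1 h2 with h3 | ⟨i, -, h3, -⟩
      · exact ⟨4, h3⟩
      · exact ⟨_, h3⟩
  · have : Nonempty (ℕ × Alg × ℕ) := ⟨(0, M0, 0)⟩
    obtain ⟨Mt, hMt⟩ : ∃ Mt : ℕ × Alg × ℕ → (List Bool → Bool) → Prop, ∀ ρ S, Mt ρ S ↔
        ∃ x : List Bool, ρ.2.2 ≤ x.length ∧
        (x ∈ insert (List.replicate 3 false) (LgU O M p K' i0' i1 A 0) ∧
          runQ (rF ρ.2.1 (O A)) S x ρ.1 [] = false ∨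
        x ∈ insert (List.replicate 4 false) (LgU O M p K' i0' i1 A 1) ∧
          runQ (rF ρ.2.1 (O A)) S x ρ.1 [] = true) := ⟨_, fun _ _ => Iff.rfl⟩
    have hlim : ∃ S, IsSep C D S ∧ ∀ ρ, Mt ρ S := by
      refine limit (Req := ℕ × Alg × ℕ) (C := C) (D := D) hdis ?_
      rintro ⟨b, MF, N⟩ S L hS
      obtain ⟨σ, hσ⟩ : ∃ σ : Finset (List Bool), ∀ q : List Bool, q.length ≤ L →
          (decide (q ∈ σ) = S q) := by
        refine ⟨((strs L).filter (fun q => S q)).toFinset, fun q hq => ?_⟩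
        have h3 : q ∈ ((strs L).filter (fun q => S q)).toFinset ↔ S q = true := by
          rw [List.mem_toFinset, List.mem_filter, mem_strs]
          exact and_iff_right hq
        cases hSq : S q with
        | true => exact decide_eq_true (h3.2 hSq)
        | false => exact decide_eq_false fun h => by rw [h3.1 h] at hSq; exact absurd hSq (by simp)
      obtain ⟨i, hi, c, hc, hH, S1, hrun⟩ := hfl b MF L σ (i1 + N)
      obtain ⟨S', hS'⟩ : ∃ S' : List Bool → Bool, ∀ q, S' q =
          if Alw O M p L σ A q (S1 q) then S1 q else S q := ⟨_, fun q => rfl⟩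
      have hrun' : RunP (rF MF (O A)) S' (fun _ => True) (List.replicate (T i) false)
          (decide (c = 1)) b [] :=
        hrun.change (fun _ _ => trivial) fun q hq => by rw [hS' q, if_pos hq]
      have hd1 := hrun'.runQ
      obtain ⟨L', hL'⟩ := exists_RunP (rF MF (O A)) S' (List.replicate (T i) false) b []
      rw [hd1] at hL'
      refine ⟨S', L', ⟨fun q hq => ?_, fun q hq => ?_⟩, fun q hq => ?_, fun S'' hS'' => ?_⟩
      · rw [hS' q]
        split_ifs with h3
        · by_cases hql : q.length ≤ L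
          · rw [h3.1 hql, hσ q hql]
            exact hS.1 q hq
          · exact (h3.2 (by omega)).1 ((hm0 q).2 hq)
        · exact hS.1 q hq
      · rw [hS' q]
        split_ifs with h3
        · by_cases hql : q.length ≤ L
          · rw [h3.1 hql, hσ q hql]
            exact hS.2 q hq
          · exact (h3.2 (by omega)).2 ((hm1 q).2 hq)
        · exact hS.2 q hq
      · rw [hS' q]
        split_ifs with h3
        · rw [h3.1 hq, hσ q hq]
        · rfl
      · rw [hMt]
        have h4 := (hL'.change (S' := S'') (P' := fun _ => True) (fun _ _ => trivial)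
          fun q hq => hS'' q hq).runQ
        refine ⟨List.replicate (T i) false, ?_, ?_⟩
        · rw [List.length_replicate]
          have := le_T i
          have h5 : N ≤ T i := by omega
          exact h5
        · interval_cases c
          · exact Or.inl ⟨Set.mem_insert_of_mem _ ⟨i, by omega, rfl, hH⟩, by rw [h4]; rfl⟩
          · exact Or.inr ⟨Set.mem_insert_of_mem _ ⟨i, by omega, rfl, hH⟩, by rw [h4]; rfl⟩
    obtain ⟨S, hS, hmeet⟩ := hlim
    refine ⟨S, hS, ?_⟩
    rintro b r ⟨MF, hMF⟩ N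
    have hr : rF MF (O A) = r := by
      funext y
      unfold rF
      rw [hMF]
      rfl
    have h2 := (hMt (b, MF, N) S).1 (hmeet (b, MF, N))
    rw [hr] at h2
    exact h2

/-- Reducibility of pairs with boundedly many questions: for every separator `S` of `(C, D)` there
are a number `b` and a procedure with at most `b` (adaptive) questions to `S` which separates
`(X, Y)`. -/
def RedBdd (B : Oracle) (X Y C D : Set (List Bool)) : Prop :=
  ∀ S : List Bool → Bool, IsSep C D S →
    ∃ (b : ℕ) (r : List Bool → List Bool), IsFP B r ∧ IsSep X Y (fun x => runQ r S x b [])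

theorem NoHardPairU.no_complete {B : Oracle} (h : NoHardPairU B) :
    ¬ ∃ C D : Set (List Bool), IsPair (IsNP B) C D ∧
      ∀ X Y : Set (List Bool), IsPair (IsNP B) X Y → RedBdd B X Y C D := by
  rintro ⟨C, D, hCD, hr⟩
  obtain ⟨X, Y, hXY, -, -, -, S, hS, h5⟩ := h C D hCD
  obtain ⟨b, r, hr1, hr2⟩ := hr X Y ⟨IsUP.isNP hXY.1, IsUP.isNP hXY.2.1, hXY.2.2⟩ S hS
  obtain ⟨x, -, hx | hx⟩ := h5 b r hr1 0
  · have := hr2.1 x hx.1
    simp only at this
    rw [hx.2] at this
    exact absurd this (by simp)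
  · have := hr2.2 x hx.1
    simp only at this
    rw [hx.2] at this
    exact absurd this (by simp)

theorem redBdd_of_redPair {B : Oracle} {X Y C D : Set (List Bool)} (h : RedPair B X Y C D) :
    RedBdd B X Y C D := by
  intro S hS
  obtain ⟨r, h1, h2⟩ := redB_of_redPair h S hS
  exact ⟨1, r, h1, h2⟩

end Pool.Agent.J4H25.NPU
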