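import Pool.Agent.J4H25.NPU.Cap

set_option autoImplicit false

/-!
# The new sets are in `UP`
-/

namespace Pool.Agent.J4H25.NPU

open MeasureTheory Filter Pool.Agent.NPC Pool.Agent.H628R3.RO Pool.Agent.J4H63.ESY Pool.Agent.J4H45.OPT
open Pool.Agent.J4H45.EXP (T wds selL selL_map lg_T T_strictMono le_T T_pos two_pow_T_le two_pow_T_lt
  mem_wds card_wds length_lt_two_pow ofL_filter' p_selL lg_iterate_le u_lgI two_pow_lg_le p_strs_lg
  u_min foldl_le ix_le)
open Pool.Agent.J4H25.NPP Pool.Agent.J4H25.NPB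

/-! ### Lists of questions as strings -/

/-- the string made of `k` blocks -/
def glue (f : ℕ → List Bool) : ℕ → List Bool
  | 0 => []
  | k + 1 => glue f k ++ f k

theorem length_glue {f : ℕ → List Bool} {β : ℕ} : ∀ {k : ℕ}, (∀ j < k, (f j).length = β) →
    (glue f k).length = k * β := by
  intro k
  induction k with
  | zero => intro _; simp [glue]
  | succ k ih =>
    intro h
    rw [glue, List.length_append, ih fun j hj => h j (by omega), h k (by omega)]
    ring

theorem block_glue {f : ℕ → List Bool} {β : ℕ} : ∀ {k : ℕ}, (∀ j < k, (f j).length = β) →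
    ∀ j < k, ((glue f k).drop (j * β)).take β = f j := by
  intro k
  induction k with
  | zero => intro _ j hj; omega
  | succ k ih =>
    intro h j hj
    have hl : (glue f k).length = k * β := length_glue fun j hj => h j (by omega)
    rw [glue]
    rcases Nat.lt_succ_iff_lt_or_eq.1 hj with h1 | h1
    · have h2 : j * β + β ≤ k * β := by
        calc j * β + β = (j + 1) * β := by ring
          _ ≤ k * β := Nat.mul_le_mul_right _ h1
      rw [List.drop_append_of_le_length (by omega), List.take_append_of_le_length (by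
        rw [List.length_drop]
        omega)]
      exact ih (fun j hj => h j (by omega)) j h1
    · subst h1
      rw [← hl, List.drop_left, List.take_of_length_le (h j (by omega)).le]

/-- the question number `j` in the string `y` (blocks of length `β`) -/
def qsL (y : List Bool) (β k j : ℕ) : List Bool :=
  (unpair ((y.drop (min j k * β)).take β)).1

theorem exists_glue {Q : ℕ → List Bool} {β k : ℕ} (h : ∀ j < k, 2 * (Q j).length + 1 ≤ β) :
    ∃ y : List Bool, y.length = k * β ∧ ∀ j < k, qsL y β k j = Q j := by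
  obtain ⟨f, hf⟩ : ∃ f : ℕ → List Bool, ∀ j, f j =
      pairBits (Q j) (List.replicate (β - (2 * (Q j).length + 1)) false) := ⟨_, fun _ => rfl⟩
  have hl : ∀ j < k, (f j).length = β := by
    intro j hj
    have := h j hj
    rw [hf, length_pairBits_A3, List.length_replicate]
    omega
  refine ⟨glue f k, length_glue hl, fun j hj => ?_⟩
  unfold qsL
  rw [min_eq_left hj.le, block_glue hl j hj, hf, unpair_pairBits]

section

variable (g : List Bool → List Bool) (M : ℕ → Alg) (p : ℕ → Polynomial ℕ) (K i0 : ℕ)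

/-- conflict at `q`, by exhaustive search -/
def cflL (m : ℕ) (S : List (List Bool)) (N : ℕ) (w w' q : List Bool) : Bool :=
  (memL (M 0) (p 0) ((asks m 0 w).map g ++ S) N q ||
    memL (M 0) (p 0) ((asks m 1 w').map g ++ S) N q) &&
  (memL (M 1) (p 1) ((asks m 0 w).map g ++ S) N q ||
    memL (M 1) (p 1) ((asks m 1 w').map g ++ S) N q)

/-- the words in conflict with `w` -/
def rowL (m n k β : ℕ) (S : List (List Bool)) (N : ℕ) (y w : List Bool) : List (List Bool) :=
  (strsEq (min n (lg N))).filter (fun w' => (List.range k).any (fun j =>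
    cflL g M p m S N w w' (qsL y β k j)))

/-- the words which are often in conflict -/
def rowsL (m n k β : ℕ) (S : List (List Bool)) (N : ℕ) (y : List Bool) : List (List Bool) :=
  (strsEq (min n (lg N))).filter (fun w => decide ((strsEq (min n (lg N))).length ≤
    4 * (rowL g M p m n k β S N y w).length))

/-- the length of the blocks -/
def bet (N k : ℕ) : ℕ := lg N / (k + 1)

/-- Is the stage captured? -/
def capL3 (S : List (List Bool)) (N n l : ℕ) : Bool :=
  (strs (lg N)).any (fun y =>
    decide ((List.range (min (mu l) n)).any (fun j =>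
      decide (n < K * (qsL y (bet N (min (mu l) n)) (min (mu l) n) j).length.size)) = false) &&
    decide ((strsEq (min n (lg N))).length ≤ 4 * (rowsL g M p (min (n + bx 3 l) N) n
      (min (mu l) n) (bet N (min (mu l) n)) S N y).length))

/-- the level at stage `i`, for an oracle given by a list -/
def levL3 (S : List (List Bool)) (N i : ℕ) : ℕ :=
  (List.range (i - i0)).foldl
    (fun l k => l + (if capL3 g M p K S N (lg^[2 * ((i - i0) - k)] N) l = true then 0 else 1)) 0

end

section

variable {O : Oracle → Oracle} (E : Emb2 O) {M : ℕ → Alg} {p : ℕ → Polynomial ℕ} {K i0 : ℕ}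
  (ok : Ok3 M p K i0)

include ok in
theorem cflL_iff {A : Oracle} {i j : ℕ} (hj : i0 ≤ j) (hji : j < i) {S : List (List Bool)}
    (hS : ∀ x : List Bool, x.length ≤ lg (T i) → ofL S x = O A x) {q : List Bool}
    (hq : K * q.length.size ≤ T j) (m : ℕ) (w w' : List Bool) :
    cflL E.g M p m S (T i) w w' q = true ↔
      Cfl O M p (plant (spots m (0, w)) A) (plant (spots m (1, w')) A) q := by
  unfold cflL Cfl
  rw [Bool.and_eq_true, Bool.or_eq_true, Bool.or_eq_true,
    memL_iff ok.ok2.ok hj hji (fun x hx => ofL_plant E hS x hx) (by norm_num : 0 < 2) hq,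
    memL_iff ok.ok2.ok hj hji (fun x hx => ofL_plant E hS x hx) (by norm_num : 0 < 2) hq,
    memL_iff ok.ok2.ok hj hji (fun x hx => ofL_plant E hS x hx) (by norm_num : 1 < 2) hq,
    memL_iff ok.ok2.ok hj hji (fun x hx => ofL_plant E hS x hx) (by norm_num : 1 < 2) hq]

include ok in
theorem length_rowL {A : Oracle} {i j : ℕ} (hj : i0 ≤ j) (hji : j < i) {S : List (List Bool)}
    (hS : ∀ x : List Bool, x.length ≤ lg (T i) → ofL S x = O A x) {k β : ℕ} {y : List Bool}
    {Q : ℕ → List Bool} (hy : ∀ t < k, qsL y β k t = Q t)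
    (hQ : ∀ t < k, K * (Q t).length.size ≤ T j) (m : ℕ) (w : List Bool) :
    (rowL E.g M p m (T j) k β S (T i) y w).length = (row O M p A (T j) m k Q w).card := by
  classical
  have h0 : min (T j) (lg (T i)) = T j := by
    refine min_eq_left ?_
    exact (Nat.lt_two_pow_self).le.trans (two_pow_T_le hji)
  have h1 : (rowL E.g M p m (T j) k β S (T i) y w).toFinset = row O M p A (T j) m k Q w := by
    ext w'
    unfold rowL row
    rw [h0, List.mem_toFinset, List.mem_filter, Finset.mem_filter, mem_wds, mem_strsEq]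
    refine and_congr_right fun hw => ?_
    rw [List.any_eq_true]
    constructor
    · rintro ⟨t, ht, h⟩
      rw [List.mem_range] at ht
      rw [hy t ht] at h
      exact ⟨t, ht, (cflL_iff E ok hj hji hS (hQ t ht) m w w').1 h⟩
    · rintro ⟨t, ht, h⟩
      refine ⟨t, List.mem_range.2 ht, ?_⟩
      rw [hy t ht]
      exact (cflL_iff E ok hj hji hS (hQ t ht) m w w').2 h
  rw [← h1, List.toFinset_card_of_nodup]
  exact (nodup_strsEq _).filter _

include ok in
theorem length_rowsL {A : Oracle} {i j : ℕ} (hj : i0 ≤ j) (hji : j < i) {S : List (List Bool)}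
    (hS : ∀ x : List Bool, x.length ≤ lg (T i) → ofL S x = O A x) {k β : ℕ} {y : List Bool}
    {Q : ℕ → List Bool} (hy : ∀ t < k, qsL y β k t = Q t)
    (hQ : ∀ t < k, K * (Q t).length.size ≤ T j) (m : ℕ) :
    (rowsL E.g M p m (T j) k β S (T i) y).length = (rows O M p A (T j) m k Q).card := by
  classical
  have h0 : min (T j) (lg (T i)) = T j := by
    refine min_eq_left ?_
    exact (Nat.lt_two_pow_self).le.trans (two_pow_T_le hji)
  have h1 : (rowsL E.g M p m (T j) k β S (T i) y).toFinset = rows O M p A (T j) m k Q := by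
    ext w
    unfold rowsL rows
    rw [h0, List.mem_toFinset, List.mem_filter, Finset.mem_filter, mem_wds, mem_strsEq,
      decide_eq_true_eq, length_strsEq, length_rowL E ok hj hji hS hy hQ]
  rw [← h1, List.toFinset_card_of_nodup]
  exact (nodup_strsEq _).filter _

include ok in
theorem le_of_lt3 {i j l : ℕ} (hj : i0 ≤ j) (hji : j < i) (hl : l ≤ j) :
    T j + bx 3 l ≤ T i := le_of_lt ok.ok2 hj hji hl

include ok in
theorem capL3_iff {A : Oracle} {i j l : ℕ} (hj : i0 ≤ j) (hji : j < i) (hl : l ≤ j)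
    {S : List (List Bool)} (hS : ∀ x : List Bool, x.length ≤ lg (T i) → ofL S x = O A x) :
    capL3 E.g M p K S (T i) (T j) l = true ↔ A ∈ Cap3 O M p K j l := by
  have h1 := two_pow_T_le hji
  have h0 : min (T j) (lg (T i)) = T j := by
    refine min_eq_left ?_
    exact (Nat.lt_two_pow_self).le.trans (two_pow_T_le hji)
  have hm : min (T j + bx 3 l) (T i) = T j + bx 3 l := min_eq_left (le_of_lt3 ok hj hji hl)
  have hk : min (mu l) (T j) = mi j l := rfl
  unfold capL3
  rw [hm, hk, h0, length_strsEq, List.any_eq_true]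
  constructor
  · rintro ⟨y, -, hq⟩
    rw [Bool.and_eq_true, decide_eq_true_eq, decide_eq_true_eq, List.any_eq_false] at hq
    obtain ⟨hq1, hq2⟩ := hq
    have hQ : ∀ t < mi j l, K * (qsL y (bet (T i) (mi j l)) (mi j l) t).length.size ≤ T j := by
      intro t ht
      have h2 := hq1 t (List.mem_range.2 ht)
      rw [decide_eq_true_eq] at h2
      omega
    rw [length_rowsL E ok hj hji hS (fun t _ => rfl) hQ] at hq2
    exact ⟨fun t => qsL y (bet (T i) (mi j l)) (mi j l) t, hQ, hq2⟩
  · rintro ⟨Q, hQ, hq2⟩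
    have hb : ∀ t < mi j l, 2 * (Q t).length + 1 ≤ bet (T i) (mi j l) := by
      intro t ht
      have h2 := hQ t ht
      have h3 : (Q t).length.size ≤ T j / 2 := by
        rw [Nat.le_div_iff_mul_le (by norm_num), mul_comm]
        exact (Nat.mul_le_mul_right _ ok.two).trans h2
      have h4 : (Q t).length < 2 ^ (T j / 2) := Nat.size_le.1 h3
      have h5 : mi j l ≤ T j := min_le_right _ _
      unfold bet
      rw [Nat.le_div_iff_mul_le (by omega)]
      calc (2 * (Q t).length + 1) * (mi j l + 1) ≤ (2 * 2 ^ (T j / 2) + 1) * (T j + 1) :=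
            Nat.mul_le_mul (by omega) (by omega)
        _ = (T j + 1) * (2 * 2 ^ (T j / 2) + 1) := by ring
        _ ≤ 2 ^ T j := ok.half j hj
        _ ≤ lg (T i) := h1
    obtain ⟨y, hy1, hy2⟩ := exists_glue hb
    refine ⟨y, mem_strs.2 ?_, ?_⟩
    · rw [hy1]
      calc mi j l * bet (T i) (mi j l) ≤ (mi j l + 1) * bet (T i) (mi j l) :=
            Nat.mul_le_mul_right _ (by omega)
        _ ≤ lg (T i) := Nat.mul_div_le _ _
    · rw [Bool.and_eq_true, decide_eq_true_eq, decide_eq_true_eq, List.any_eq_false]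
      refine ⟨fun t ht => ?_, ?_⟩
      · rw [List.mem_range] at ht
        rw [hy2 t ht, decide_eq_true_eq]
        have := hQ t ht
        omega
      · rw [length_rowsL E ok hj hji hS hy2 hQ]
        exact hq2

include ok in
theorem levL3_eq {A : Oracle} {i : ℕ} (hi : i0 ≤ i) {S : List (List Bool)}
    (hS : ∀ x : List Bool, x.length ≤ lg (T i) → ofL S x = O A x) :
    levL3 E.g M p K i0 S (T i) i = lvG (Cap3 O M p K) i0 A i := by
  have key : ∀ k ≤ i - i0, (List.range k).foldl
      (fun l k => l + (if capL3 E.g M p K S (T i) (lg^[2 * ((i - i0) - k)] (T i)) l = true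
        then 0 else 1)) 0 = lvG (Cap3 O M p K) i0 A (i0 + k) := by
    intro k
    induction k with
    | zero =>
      intro _
      rw [lvG_zero _ _ A (by omega)]
      rfl
    | succ k ih =>
      intro hk
      rw [List.range_succ, List.foldl_append, ih (by omega)]
      simp only [List.foldl_cons, List.foldl_nil]
      have h1 : lg^[2 * ((i - i0) - k)] (T i) = T (i0 + k) := by
        have h2 := lg_T (i0 + k) ((i - i0) - k)
        have h3 : i0 + k + ((i - i0) - k) = i := by omega
        rwa [h3] at h2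
      rw [h1]
      have h4 := capL3_iff E ok (A := A) (i := i) (j := i0 + k)
        (l := lvG (Cap3 O M p K) i0 A (i0 + k))
        (by omega) (by omega) ((lvG_le _ _ A _)) hS
      by_cases h5 : A ∈ Cap3 O M p K (i0 + k) (lvG (Cap3 O M p K) i0 A (i0 + k))
      · rw [if_pos (h4.2 h5), ← add_assoc, lvG_succ_of _ _ (by omega) h5]
        rfl
      · rw [if_neg (fun h => h5 (h4.1 h)), ← add_assoc, lvG_succ_of_not _ _ (by omega) h5]
  unfold levL3
  rw [key _ le_rfl]
  congr 1
  omega

end

/-! ### Polynomial time -/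

section

variable {α : Type} [TEnc α]

theorem u_mu {l : α → ℕ} (hl : Poly l) : UPoly (fun a => mu (l a)) := by
  have h1 : Poly (fun a => l a + 1) := Poly.succ hl
  have h3 : UPoly (fun a => (l a + 1).size) := u_size h1
  exact UPoly.of_le (Poly.div h3.toPoly (NPC.Poly.const 16)) h3 fun _ => Nat.div_le_self _ _

theorem u_mulN {l n : α → ℕ} (hl : Poly l) (hn : Poly n) :
    UPoly (fun a => min (mu (l a)) (n a)) :=
  UPoly.of_le (Poly.min (u_mu hl).toPoly hn) (u_mu hl) fun _ => min_le_left _ _

theorem u_bet {N k : α → ℕ} (hN : UPoly N) (hk : UPoly k) :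
    UPoly (fun a => bet (N a) (k a)) :=
  UPoly.of_le (Poly.div (u_lg hN.toPoly).toPoly (Poly.succ hk.toPoly)) (u_lg hN.toPoly)
    fun _ => Nat.div_le_self _ _

theorem p_qsL {y : α → List Bool} {β k j : α → ℕ} (hy : Poly y) (hβ : UPoly β) (hk : UPoly k)
    (hj : Poly j) : Poly (fun a => qsL (y a) (β a) (k a) (j a)) := by
  have h1 : UPoly (fun a => min (j a) (k a)) :=
    UPoly.of_le (Poly.min hj hk.toPoly) hk fun _ => min_le_right _ _
  exact Poly.fst (poly_unpair.comp (p_take' (p_drop hy (UPoly.mul h1 hβ)) hβ))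

theorem p_cflL {g : List Bool → List Bool} (hg : Poly g) (M : ℕ → Alg) (p : ℕ → Polynomial ℕ)
    {m N : α → ℕ} {S : α → List (List Bool)} {w w' q : α → List Bool} (hm : UPoly m) (hS : Poly S)
    (hN : UPoly N) (hw : Poly w) (hw' : Poly w') (hq : Poly q) :
    Poly (fun a => cflL g M p (m a) (S a) (N a) (w a) (w' a) (q a)) := by
  have key : ∀ (s c : ℕ) {v : α → List Bool}, Poly v →
      Poly (fun a => memL (M s) (p s) ((asks (m a) c (v a)).map g ++ S a) (N a) (q a)) := by
    intro s c v hv
    refine p_memL (M s) (p s) (Poly.append ?_ hS) hN hq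
    exact NPC.Poly.map (F := fun _ x => g x) (p_asks hm (UPoly.const c) hv)
      (hg.comp (Poly.snd Poly.id))
  exact Poly.and (p_or (key 0 0 hw) (key 0 1 hw')) (p_or (key 1 0 hw) (key 1 1 hw'))

theorem p_rowL {g : List Bool → List Bool} (hg : Poly g) (M : ℕ → Alg) (p : ℕ → Polynomial ℕ)
    {m n k β N : α → ℕ} {S : α → List (List Bool)} {y w : α → List Bool} (hm : UPoly m)
    (hn : Poly n) (hk : UPoly k) (hβ : UPoly β) (hS : Poly S) (hN : UPoly N) (hy : Poly y)
    (hw : Poly w) :
    Poly (fun a => rowL g M p (m a) (n a) (k a) (β a) (S a) (N a) (y a) (w a)) := by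
  have f1 : Poly (fun r : α × List Bool => r.1) := Poly.fst Poly.id
  have f2 : Poly (fun r : α × List Bool => r.2) := Poly.snd Poly.id
  have g1 : Poly (fun r : (α × List Bool) × ℕ => r.1.1) := Poly.fst (Poly.fst Poly.id)
  have g2 : Poly (fun r : (α × List Bool) × ℕ => r.1.2) := Poly.snd (Poly.fst Poly.id)
  have g3 : Poly (fun r : (α × List Bool) × ℕ => r.2) := Poly.snd Poly.id
  refine NPC.Poly.filter (p := fun a w' => (List.range (k a)).any (fun j =>
    cflL g M p (m a) (S a) (N a) (w a) w' (qsL (y a) (β a) (k a) j))) (p_strsEq' hn hN) ?_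
  refine NPC.Poly.any (l := fun r : α × List Bool => List.range (k r.1))
    (p := fun r j => cflL g M p (m r.1) (S r.1) (N r.1) (w r.1) r.2
      (qsL (y r.1) (β r.1) (k r.1) j)) (hk.comp f1).range ?_
  exact p_cflL hg M p (hm.comp g1) (hS.comp g1) (hN.comp g1) (hw.comp g1) g2
    (p_qsL (hy.comp g1) (hβ.comp g1) (hk.comp g1) g3)

theorem p_rowsL {g : List Bool → List Bool} (hg : Poly g) (M : ℕ → Alg) (p : ℕ → Polynomial ℕ)
    {m n k β N : α → ℕ} {S : α → List (List Bool)} {y : α → List Bool} (hm : UPoly m)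
    (hn : Poly n) (hk : UPoly k) (hβ : UPoly β) (hS : Poly S) (hN : UPoly N) (hy : Poly y) :
    Poly (fun a => rowsL g M p (m a) (n a) (k a) (β a) (S a) (N a) (y a)) := by
  have f1 : Poly (fun r : α × List Bool => r.1) := Poly.fst Poly.id
  have f2 : Poly (fun r : α × List Bool => r.2) := Poly.snd Poly.id
  refine NPC.Poly.filter (p := fun a w => decide ((strsEq (min (n a) (lg (N a)))).length ≤
    4 * (rowL g M p (m a) (n a) (k a) (β a) (S a) (N a) (y a) w).length)) (p_strsEq' hn hN) ?_
  exact Poly.decide_le ((Poly.length (p_strsEq' hn hN)).comp f1)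
    (Poly.mul (NPC.Poly.const 4) (Poly.length (p_rowL hg M p (hm.comp f1) (hn.comp f1)
      (hk.comp f1) (hβ.comp f1) (hS.comp f1) (hN.comp f1) (hy.comp f1) f2)))

theorem p_capL3 {g : List Bool → List Bool} (hg : Poly g) (M : ℕ → Alg) (p : ℕ → Polynomial ℕ)
    (K : ℕ) {S : α → List (List Bool)} {N n l : α → ℕ} (hS : Poly S) (hN : UPoly N) (hn : Poly n)
    (hl : Poly l) : Poly (fun a => capL3 g M p K (S a) (N a) (n a) (l a)) := by
  have f1 : Poly (fun r : α × List Bool => r.1) := Poly.fst Poly.id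
  have f2 : Poly (fun r : α × List Bool => r.2) := Poly.snd Poly.id
  have g1 : Poly (fun r : (α × List Bool) × ℕ => r.1.1) := Poly.fst (Poly.fst Poly.id)
  have g2 : Poly (fun r : (α × List Bool) × ℕ => r.1.2) := Poly.snd (Poly.fst Poly.id)
  have g3 : Poly (fun r : (α × List Bool) × ℕ => r.2) := Poly.snd Poly.id
  have hm : UPoly (fun a => min (n a + bx 3 (l a)) (N a)) :=
    u_min (Poly.add hn (u_bx 3 hl).toPoly) hN
  have hk : UPoly (fun a => min (mu (l a)) (n a)) := u_mulN hl hn
  have hβ : UPoly (fun a => bet (N a) (min (mu (l a)) (n a))) := u_bet hN hk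
  refine NPC.Poly.any (p := fun a y =>
    decide ((List.range (min (mu (l a)) (n a))).any (fun j =>
      decide (n a < K * (qsL y (bet (N a) (min (mu (l a)) (n a))) (min (mu (l a)) (n a))
        j).length.size)) = false) &&
    decide ((strsEq (min (n a) (lg (N a)))).length ≤ 4 * (rowsL g M p
      (min (n a + bx 3 (l a)) (N a)) (n a) (min (mu (l a)) (n a))
      (bet (N a) (min (mu (l a)) (n a))) (S a) (N a) y).length))
    (p_strs_lg hN) (Poly.and (Poly.decide_eq ?_ (NPC.Poly.const false)) ?_)
  · refine NPC.Poly.any (l := fun r : α × List Bool => List.range (min (mu (l r.1)) (n r.1)))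
      (p := fun r j => decide (n r.1 < K * (qsL r.2 (bet (N r.1) (min (mu (l r.1)) (n r.1)))
        (min (mu (l r.1)) (n r.1)) j).length.size)) (hk.comp f1).range ?_
    exact Poly.decide_lt (hn.comp g1) (Poly.mul (NPC.Poly.const K) (u_size (Poly.length
      (p_qsL g2 (hβ.comp g1) (hk.comp g1) g3))).toPoly)
  · exact Poly.decide_le ((Poly.length (p_strsEq' hn hN)).comp f1)
      (Poly.mul (NPC.Poly.const 4) (Poly.length (p_rowsL hg M p (hm.comp f1) (hn.comp f1)
        (hk.comp f1) (hβ.comp f1) (hS.comp f1) (hN.comp f1) f2)))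

theorem p_levL3 {g : List Bool → List Bool} (hg : Poly g) (M : ℕ → Alg) (p : ℕ → Polynomial ℕ)
    (K i0 : ℕ) {S : α → List (List Bool)} {N i : α → ℕ} (hS : Poly S) (hN : UPoly N)
    (hi : UPoly i) : Poly (fun a => levL3 g M p K i0 (S a) (N a) (i a)) := by
  have hd : UPoly (fun a => i a - i0) :=
    UPoly.of_le (Poly.sub hi.toPoly (NPC.Poly.const i0)) hi fun _ => Nat.sub_le _ _
  obtain ⟨r, hr⟩ := uPoly_le hd
  refine NPC.Poly.foldl (l := fun a => List.range (i a - i0)) (s := fun _ => (0 : ℕ))
    (F := fun (a : α) (l k : ℕ) =>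
      l + (if capL3 g M p K (S a) (N a) (lg^[2 * ((i a - i0) - k)] (N a)) l = true then 0 else 1))
    hd.range (NPC.Poly.const 0) ?_ (Polynomial.C 4 * r + Polynomial.C 1) ?_
  · have h1 : Poly (fun p : α × ℕ × ℕ => p.1) := Poly.fst Poly.id
    have h2 : Poly (fun p : α × ℕ × ℕ => p.2.1) := Poly.fst (Poly.snd Poly.id)
    have h3 : Poly (fun p : α × ℕ × ℕ => p.2.2) := Poly.snd (Poly.snd Poly.id)
    have h4 : UPoly (fun p : α × ℕ × ℕ => (i p.1 - i0) - p.2.2) :=
      UPoly.of_le (Poly.sub (hd.toPoly.comp h1) h3) (hd.comp h1) fun _ => Nat.sub_le _ _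
    have h5 : UPoly (fun p : α × ℕ × ℕ => 2 * ((i p.1 - i0) - p.2.2)) :=
      UPoly.mul (UPoly.const 2) h4
    have h6 : UPoly (fun p : α × ℕ × ℕ => lg^[2 * ((i p.1 - i0) - p.2.2)] (N p.1)) :=
      u_lgI (hN.comp h1) h5
    have h7 : Poly (fun r : α × ℕ × ℕ => capL3 g M p K (S r.1) (N r.1)
        (lg^[2 * ((i r.1 - i0) - r.2.2)] (N r.1)) r.2.1) :=
      p_capL3 hg M p K (hS.comp h1) (hN.comp h1) h6.toPoly h2
    exact Poly.add h2 (Poly.ite (Poly.decide_bool h7) (NPC.Poly.const 0) (NPC.Poly.const 1))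
  · intro a k _
    have h1 := foldl_le (fun l k => capL3 g M p K (S a) (N a)
      (lg^[2 * ((i a - i0) - k)] (N a)) l) ((List.range (i a - i0)).take k) 0
    have h2 : ((List.range (i a - i0)).take k).length ≤ i a - i0 := by
      rw [List.length_take, List.length_range]
      exact min_le_right _ _
    have h3 := hr a
    set v := ((List.range (i a - i0)).take k).foldl (fun l k =>
      l + (if capL3 g M p K (S a) (N a) (lg^[2 * ((i a - i0) - k)] (N a)) l = true then 0 else 1)) 0
      with hv
    have h4 := sz_nat_le v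
    have h5 := Poly.size_le_self v
    simp only [Polynomial.eval_add, Polynomial.eval_mul, Polynomial.eval_C]
    omega

end

/-! ### The verifier -/

section

variable (g : List Bool → List Bool) (M : ℕ → Alg) (p : ℕ → Polynomial ℕ) (K i0 i1 c : ℕ)

/-- the decision, given the answers -/
def decN3 (x w ans : List Bool) : Bool :=
  decide (x = List.replicate x.length false) && (decide (w.length = x.length) &&
    (decide (ix x.length = 2 * (ix x.length / 2) + 1) && (decide (i1 ≤ ix x.length / 2) &&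
      ((ans.drop (strs (lg x.length)).length).take (x.length +
        bx 3 (levL3 g M p K i0 (selL (strs (lg x.length)) (ans.take (strs (lg x.length)).length))
          x.length (ix x.length / 2)))).all id)))

theorem p_decN3 {g : List Bool → List Bool} (hg : Poly g) :
    Poly (fun z : (List Bool × List Bool) × List Bool => decN3 g M p K i0 i1 z.1.1 z.1.2 z.2) := by
  have hx : Poly (fun z : (List Bool × List Bool) × List Bool => z.1.1) :=
    Poly.fst (Poly.fst Poly.id)
  have hw : Poly (fun z : (List Bool × List Bool) × List Bool => z.1.2) :=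
    Poly.snd (Poly.fst Poly.id)
  have ha : Poly (fun z : (List Bool × List Bool) × List Bool => z.2) := Poly.snd Poly.id
  have hn := UPoly.length hx
  have hs := p_strs_lg hn
  have h3 : UPoly (fun z : (List Bool × List Bool) × List Bool => ix z.1.1.length) :=
    UPoly.of_le (p_ix hn) hn fun _ => ix_le _
  have h4 : UPoly (fun z : (List Bool × List Bool) × List Bool => ix z.1.1.length / 2) :=
    UPoly.of_le (Poly.div h3.toPoly (NPC.Poly.const 2)) h3 fun _ => Nat.div_le_self _ _
  have h5 := p_levL3 hg M p K i0 (p_selL hs (p_take' ha (UPoly.length hs))) hn h4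
  refine Poly.and (Poly.decide_eq hx (p_replicate hn)) (Poly.and
    (Poly.decide_eq (Poly.length hw) (Poly.length hx)) (Poly.and
    (Poly.decide_eq h3.toPoly (Poly.succ (Poly.mul (NPC.Poly.const 2) h4.toPoly)))
    (Poly.and (Poly.decide_le (NPC.Poly.const i1) h4.toPoly) ?_)))
  exact p_all_id (p_take' (p_drop ha (UPoly.length hs)) (UPoly.add hn (u_bx 3 h5)))

end

/-! ### Hits -/

/-- the new sets: `LgU 0 = X`, `LgU 1 = Y` -/
def LgU (O : Oracle → Oracle) (M : ℕ → Alg) (p : ℕ → Polynomial ℕ) (K i0 i1 : ℕ) (A : Oracle)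
    (c : ℕ) : Set (List Bool) :=
  {x | ∃ i, i1 ≤ i ∧ x = List.replicate (T i) false ∧
    A ∈ HevB 3 c i (lvG (Cap3 O M p K) i0 A i)}

/-! ### The verifier accepts the hits -/

theorem decN3_iff {O : Oracle → Oracle} (E : Emb2 O) {M : ℕ → Alg} {p : ℕ → Polynomial ℕ}
    {K i0 : ℕ} (ok : Ok3 M p K i0) {i1 : ℕ} (hi1 : i0 ≤ i1) (A : Oracle) (c : ℕ)
    (x w : List Bool) :
    decN3 E.g M p K i0 i1 x w ((askN2 E.g 3 c (x, w)).map (O A)) = true ↔
      ∃ i, i1 ≤ i ∧ x = List.replicate (T i) false ∧ w.length = T i ∧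
        Hit (T i + bx 3 (lvG (Cap3 O M p K) i0 A i)) (c, w) A := by
  have hans : (askN2 E.g 3 c (x, w)).map (O A) =
      (strs (lg x.length)).map (O A) ++ (asks (2 * x.length + (2 * 3 + 16)) c w).map A := by
    unfold askN2
    rw [List.map_append, map_map_emb E.toEmb]
  have htake : ((askN2 E.g 3 c (x, w)).map (O A)).take (strs (lg x.length)).length =
      (strs (lg x.length)).map (O A) := by
    rw [hans, List.take_left' (by rw [List.length_map])]
  have hdrop : ((askN2 E.g 3 c (x, w)).map (O A)).drop (strs (lg x.length)).length =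
      (asks (2 * x.length + (2 * 3 + 16)) c w).map A := by
    rw [hans, List.drop_left' (by rw [List.length_map])]
  have hlev : ∀ i, i1 ≤ i → x.length = T i →
      levL3 E.g M p K i0 ((strs (lg x.length)).filter (O A)) x.length i = lvG (Cap3 O M p K) i0 A i := by
    intro i hi hx
    rw [hx]
    exact levL3_eq E ok (hi1.trans hi) fun y hy => ofL_filter' _ hy
  have hix : ∀ i, ix (T i) = 2 * i + 1 := fun i => ix_tw (2 * i)
  have hhit : ∀ i, x.length = T i →
      ((((asks (2 * x.length + (2 * 3 + 16)) c w).map A).take (x.length + bx 3 (lvG (Cap3 O M p K) i0 A i))).all id = true ↔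
        Hit (T i + bx 3 (lvG (Cap3 O M p K) i0 A i)) (c, w) A) := by
    intro i hx
    rw [← List.map_take, ← asks_all]
    have e1 := bx_le 3 (lvG (Cap3 O M p K) i0 A i)
    have e2 := (lvG_le (Cap3 O M p K) i0 A i).trans (le_T i)
    have e3 : (asks (2 * x.length + (2 * 3 + 16)) c w).take (x.length + bx 3 (lvG (Cap3 O M p K) i0 A i)) =
        asks (T i + bx 3 (lvG (Cap3 O M p K) i0 A i)) c w := by
      unfold asks
      rw [← List.map_take, take_range' _ _ (by omega), hx]
    rw [e3]
  unfold decN3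
  rw [htake, hdrop, selL_map]
  simp only [Bool.and_eq_true, decide_eq_true_eq]
  constructor
  · rintro ⟨hx, hwl, h3, h4, h5⟩
    have hT : x.length = T (ix x.length / 2) := tw_of_ix h3
    rw [hlev _ h4 hT] at h5
    refine ⟨ix x.length / 2, h4, ?_, by rw [hwl, ← hT], (hhit _ hT).1 h5⟩
    rw [← hT]
    exact hx
  · rintro ⟨i, hi, hx, hw, hh⟩
    have hl : x.length = T i := by rw [hx, List.length_replicate]
    have h1 : ix x.length = 2 * i + 1 := by rw [hl, hix]
    have h2 : ix x.length / 2 = i := by rw [h1]; omega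
    rw [h2, hlev i hi hl]
    refine ⟨?_, by rw [hw, hl], h1, hi, (hhit i hl).2 hh⟩
    rw [hl]
    exact hx

/-- the new sets are in `UP` if there are no two hits -/
theorem isUP_LgU {O : Oracle → Oracle} (E : Emb2 O) {M : ℕ → Alg} {p : ℕ → Polynomial ℕ}
    {K i0 : ℕ} (ok : Ok3 M p K i0) {i1 : ℕ} (hi1 : i0 ≤ i1) (A : Oracle) (c : ℕ)
    (hU : ∀ i, i1 ≤ i → A ∉ TwB 3 c c i (lvG (Cap3 O M p K) i0 A i)) :
    IsUP (O A) (LgU O M p K i0 i1 A c) := by
  refine isUP_of_tt (O A) _ (Q := askN2 E.g 3 c)
    (T := fun z => decN3 E.g M p K i0 i1 z.1.1 z.1.2 z.2) (p_askN2 3 c E.pg)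
    (p_decN3 M p K i0 i1 E.pg) Polynomial.X (fun x => ?_) (fun x w w' hw hw' => ?_)
  · constructor
    · rintro ⟨i, hi, hx, w, hw, hh⟩
      refine ⟨w, ?_, (decN3_iff E ok hi1 A c x w).2 ⟨i, hi, hx, hw, hh⟩⟩
      rw [Polynomial.eval_X, hx, List.length_replicate, hw]
    · rintro ⟨w, -, hw⟩
      obtain ⟨i, hi, hx, hwl, hh⟩ := (decN3_iff E ok hi1 A c x w).1 hw
      exact ⟨i, hi, hx, w, hwl, hh⟩
  · obtain ⟨i, hi, hx, hwl, hh⟩ := (decN3_iff E ok hi1 A c x w).1 hw
    obtain ⟨i', hi', hx', hwl', hh'⟩ := (decN3_iff E ok hi1 A c x w').1 hw'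
    have hii : i' = i := by
      apply T_strictMono.injective
      have h1 := congrArg List.length hx
      have h2 := congrArg List.length hx'
      rw [List.length_replicate] at h1 h2
      omega
    subst hii
    by_contra hne
    exact hU i' hi ⟨w, w', hwl, hwl', fun h => hne (Prod.ext_iff.1 h).2, hh, hh'⟩

end Pool.Agent.J4H25.NPU
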